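import Pool.Agent.Q91.PT.Stm4
import Pool.Agent.Q224.PT.FN5

/-!
# Project PT (helper91), job FN6: the ratio theorem at a fixed area and total variation for loops, better rate
-/

set_option autoImplicit false

namespace Pool.Agent.Q280.PT.FN6

open Finset Pool.Agent.H976R2 Pool.Agent.H976R2.Lip Pool.Agent.H739K Pool.Agent.H924P
open Pool.Agent.Q91.PT
open Pool.Agent.Q224.PT.TVW (Nn_le card_pos)
open Pool.Agent.Q224.PT.FN5 (pl_one pl_all)
open scoped Classical

noncomputable section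

/-- **FN6** -/
theorem t (hc : S_cnv) (hup : S_up2) (htv : S_tv2) : S_fn6 := by
  obtain ⟨K, δ, hK, hδ, hup⟩ := hup
  obtain ⟨K', hK', htv⟩ := htv
  refine ⟨4 * K + 3 + 4 * K', δ / 16, by positivity, by positivity, ?_⟩
  intro n hn
  have h2 : (2 : ℝ) ≤ n := by exact_mod_cast hn
  have hn0 : (0 : ℝ) < n := by linarith
  have hmu : 0 < H981.mu := H981.mu_pos
  have hm3 : 3 ≤ 2 * n - 1 := by omega
  have hmo : (2 * n - 1) % 2 = 1 := by omega
  have hmm : 2 * (n + 1) - 1 = 2 * n - 1 + 2 := by omega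
  have hmn : (n : ℝ) ≤ ((2 * n - 1 : ℕ) : ℝ) := by
    have : n ≤ 2 * n - 1 := by omega
    exact_mod_cast this
  have hm0 : (0 : ℝ) < ((2 * n - 1 : ℕ) : ℝ) := by linarith
  have hl2 : 0.69 ≤ Real.log 2 := by
    have := Real.log_two_gt_d9
    linarith
  have hln : Real.log 2 ≤ Real.log n := Real.log_le_log (by norm_num) h2
  have hl0 : 0 < Real.log n := by linarith
  have hlm : Real.log ((2 * n - 1 : ℕ) : ℝ) ≤ 2 * Real.log n := by
    have h3 : ((2 * n - 1 : ℕ) : ℝ) ≤ 2 * n := by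
      have : 2 * n - 1 ≤ 2 * n := by omega
      exact_mod_cast this
    have h4 := Real.log_le_log hm0 h3
    rw [Real.log_mul (by norm_num) hn0.ne'] at h4
    linarith
  have hlm0 : 0 ≤ Real.log ((2 * n - 1 : ℕ) : ℝ) := Real.log_nonneg (by linarith)
  have hM := card_pos hm3 hmo
  have hM' := card_pos (n := 2 * n - 1 + 2) (by omega) (by omega)
  have hn1 : (0 : ℝ) < ((n + 1 : ℕ) : ℝ) := by positivity
  have hsn0 : 0 < Real.sqrt n := Real.sqrt_pos.2 hn0
  have hsm0 : 0 < Real.sqrt ((2 * n - 1 : ℕ) : ℝ) := Real.sqrt_pos.2 hm0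
  have hsmn : Real.sqrt n ≤ Real.sqrt ((2 * n - 1 : ℕ) : ℝ) := Real.sqrt_le_sqrt hmn
  constructor
  · intro a ha hcond
    have hNa : 0 < Nn (2 * n - 1) a := by
      rw [pl_one hc hn] at ha
      exact (div_pos_iff_of_pos_right (by positivity)).1 ha
    have hratio : pl n Set.univ Set.univ / pl n Set.univ {a} =
        ((KP (2 * n - 1)).card : ℝ) / Nn (2 * n - 1) a := by
      rw [pl_one hc hn, pl_all hc hn]
      field_simp
    rw [hratio] at hcond ⊢
    have hMN : 1 ≤ ((KP (2 * n - 1)).card : ℝ) / Nn (2 * n - 1) a := by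
      rw [one_le_div hNa]
      exact Nn_le _ a
    have hlog0 := Real.log_nonneg hMN
    set h : ℝ := Real.log n ^ 2 + Real.log (((KP (2 * n - 1)).card : ℝ) / Nn (2 * n - 1) a) with hh
    have hhl0 : 0 ≤ hl (2 * n - 1) a := by
      unfold hl
      positivity
    have hhl : hl (2 * n - 1) a ≤ 4 * h := by
      unfold hl
      have h5 : Real.log ((2 * n - 1 : ℕ) : ℝ) ^ 2 ≤ (2 * Real.log n) ^ 2 :=
        pow_le_pow_left₀ hlm0 hlm 2
      have h6 : (2 * Real.log n) ^ 2 = 4 * Real.log n ^ 2 := by ring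
      linarith
    have hh0 : 0.476 ≤ h := by
      have : (0.69 : ℝ) ^ 2 ≤ Real.log n ^ 2 := pow_le_pow_left₀ (by norm_num) (by linarith) 2
      norm_num at this ⊢
      linarith
    have hhl3 : hl (2 * n - 1) a ^ 2 ≤ 16 * h ^ 2 := by
      calc hl (2 * n - 1) a ^ 2 ≤ (4 * h) ^ 2 := pow_le_pow_left₀ hhl0 hhl 2
        _ = 16 * h ^ 2 := by ring
    have hc2 : hl (2 * n - 1) a ^ 2 ≤ δ * ((2 * n - 1 : ℕ) : ℝ) := by
      calc hl (2 * n - 1) a ^ 2 ≤ 16 * h ^ 2 := hhl3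
        _ ≤ 16 * (δ / 16 * n) := by linarith
        _ = δ * n := by ring
        _ ≤ δ * ((2 * n - 1 : ℕ) : ℝ) := mul_le_mul_of_nonneg_left hmn hδ.le
    have hx := hup (2 * n - 1) hm3 hmo a hNa hc2
    set x : ℝ := Nn (2 * n - 1 + 2) a / (H981.mu ^ 2 * Nn (2 * n - 1) a) with hxd
    have hz : hl (2 * n - 1) a / Real.sqrt ((2 * n - 1 : ℕ) : ℝ) ≤ 4 * (h / Real.sqrt n) := by
      rw [mul_div_assoc']
      exact div_le_div₀ (by linarith) hhl hsn0 hsmn
    have hx1 : |x - 1| ≤ 4 * K * (h / Real.sqrt n) := by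
      calc |x - 1| ≤ K * (hl (2 * n - 1) a / Real.sqrt ((2 * n - 1 : ℕ) : ℝ)) := hx
        _ ≤ K * (4 * (h / Real.sqrt n)) := mul_le_mul_of_nonneg_left hz hK.le
        _ = _ := by ring
    have hinv : 1 / (n : ℝ) ≤ 3 * (h / Real.sqrt n) := by
      have e1 : Real.sqrt n ≤ n := by
        rw [Real.sqrt_le_left hn0.le]
        nlinarith
      rw [mul_div_assoc']
      exact div_le_div₀ (by linarith) (by norm_num at hh0 ⊢; linarith) hsn0 e1
    have e0 : pl (n + 1) Set.univ {a} / (H981.mu ^ 2 * pl n Set.univ {a}) - 1 =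
        (x - 1) * (n / (n + 1)) - 1 / (n + 1) := by
      rw [pl_one hc hn, pl_one hc (by omega : 2 ≤ n + 1), hmm, hxd]
      push_cast
      field_simp
      ring
    rw [e0]
    have hfr0 : 0 ≤ (n : ℝ) / (n + 1) := by positivity
    have hfr1 : (n : ℝ) / (n + 1) ≤ 1 := by
      rw [div_le_one (by positivity)]
      linarith
    have hin : 1 / ((n : ℝ) + 1) ≤ 1 / n := one_div_le_one_div_of_le hn0 (by linarith)
    have hin0 : 0 ≤ 1 / ((n : ℝ) + 1) := by positivity
    have e1 : |(x - 1) * (n / (n + 1)) - 1 / (n + 1)| ≤ |x - 1| + 1 / n := by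
      calc |(x - 1) * (n / (n + 1)) - 1 / (n + 1)|
          ≤ |(x - 1) * ((n : ℝ) / (n + 1))| + |1 / ((n : ℝ) + 1)| := abs_sub _ _
        _ ≤ |x - 1| + 1 / n := by
            rw [abs_mul, abs_of_nonneg hfr0, abs_of_nonneg hin0]
            have : |x - 1| * ((n : ℝ) / (n + 1)) ≤ |x - 1| * 1 :=
              mul_le_mul_of_nonneg_left hfr1 (abs_nonneg _)
            linarith
    have e2 : 0 ≤ 4 * K' * (h / Real.sqrt n) := by
      have : 0 ≤ h / Real.sqrt n := div_nonneg (by linarith) hsn0.le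
      positivity
    calc _ ≤ |x - 1| + 1 / (n : ℝ) := e1
      _ ≤ 4 * K * (h / Real.sqrt n) + 3 * (h / Real.sqrt n) := add_le_add hx1 hinv
      _ ≤ (4 * K + 3 + 4 * K') * (h / Real.sqrt n) := by linarith
  · intro S
    have h1 := htv (2 * n - 1) hm3 hmo S
    have e1 : ∑ a ∈ S, |pl (n + 1) Set.univ {a} / pl (n + 1) Set.univ Set.univ -
        pl n Set.univ {a} / pl n Set.univ Set.univ| =
        ∑ a ∈ S, |Nn (2 * n - 1 + 2) a / (KP (2 * n - 1 + 2)).card -
          Nn (2 * n - 1) a / (KP (2 * n - 1)).card| := by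
      refine Finset.sum_congr rfl fun a _ => ?_
      rw [pl_one hc hn, pl_one hc (by omega : 2 ≤ n + 1), pl_all hc hn,
        pl_all hc (by omega : 2 ≤ n + 1), hmm, div_div_div_cancel_right₀ (by positivity),
        div_div_div_cancel_right₀ (by positivity)]
    rw [e1]
    refine h1.trans ?_
    have hq0 : 0 < Real.log n ^ 2 / Real.sqrt n := by positivity
    have e2 : Real.log ((2 * n - 1 : ℕ) : ℝ) ^ 2 / Real.sqrt ((2 * n - 1 : ℕ) : ℝ) ≤
        4 * (Real.log n ^ 2 / Real.sqrt n) := by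
      rw [mul_div_assoc']
      apply div_le_div₀ (by positivity) _ hsn0 hsmn
      calc Real.log ((2 * n - 1 : ℕ) : ℝ) ^ 2 ≤ (2 * Real.log n) ^ 2 :=
            pow_le_pow_left₀ hlm0 hlm 2
        _ = 4 * Real.log n ^ 2 := by ring
    calc K' * (Real.log ((2 * n - 1 : ℕ) : ℝ) ^ 2 / Real.sqrt ((2 * n - 1 : ℕ) : ℝ))
        ≤ K' * (4 * (Real.log n ^ 2 / Real.sqrt n)) := mul_le_mul_of_nonneg_left e2 hK'.le
      _ ≤ (4 * K + 3 + 4 * K') * (Real.log n ^ 2 / Real.sqrt n) := by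
          nlinarith [mul_pos hK hq0]

end

end Pool.Agent.Q280.PT.FN6
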