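import Pool.Agent.Q91.PT.Stm4
import Pool.Agent.Q195.PT.PHS

/-!
# Project PT, job PH2: the sums of the averaged indicator of the area, with squares
-/

set_option autoImplicit false

namespace Pool.Agent.Q280.PT.PH2

open Finset Pool.Agent.Q91.PT Pool.Agent.H976R2 Pool.Agent.H976R2.Lip Pool.Agent.H739K Pool.Agent.H924P
open scoped Classical

theorem t (hA : S_abs) (hF : S_flp) : S_ph2 := by
  intro n hn a κ _
  exact Pool.Agent.Q195.PT.PHS.key hA hF n hn a κ (fun x K => ((2 * x - K) / K) ^ 2)

end Pool.Agent.Q280.PT.PH2
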