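import Pool.Agent.Q91.PT.Stm4
import Pool.Agent.Q224.PT.TVW
import Pool.Agent.W387.Q.Poly
import Pool.Agent.TH508.LT.Ex2

/-!
# Project PT (helper91), job TV2: total variation, better rate
-/

set_option autoImplicit false

namespace Pool.Agent.Q280.PT.TV2

open Finset Pool.Agent.H976R2 Pool.Agent.H976R2.Lip Pool.Agent.H739K Pool.Agent.H924P
open Pool.Agent.Q91.PT
open Pool.Agent.Q224.PT.TVW (tv_abs log_one Nn_eq Nn_nonneg ar_le sum_Nn sum_Nn_le Nn_le Nn_zero card_pos)
open scoped Classical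

noncomputable section

/-- the rate -/
def rr (n : ℕ) : ℝ := Real.log n ^ 2 / Real.sqrt n

theorem rr_pos {n : ℕ} (hn : 3 ≤ n) : 0 < rr n := by
  have h3 : (0 : ℝ) < n := by
    have : (3 : ℝ) ≤ n := by exact_mod_cast hn
    linarith
  have hu := log_one hn
  unfold rr
  positivity

theorem sqrt_le {n : ℕ} (hn : 3 ≤ n) : Real.sqrt n ≤ n := by
  have h3 : (3 : ℝ) ≤ n := by exact_mod_cast hn
  rw [Real.sqrt_le_left (by linarith)]
  nlinarith

theorem inv_le_rr {n : ℕ} (hn : 3 ≤ n) : 1 / (n : ℝ) ≤ rr n := by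
  have h3 : (3 : ℝ) ≤ n := by exact_mod_cast hn
  have hu := log_one hn
  have hs := sqrt_le hn
  have hs0 : 0 < Real.sqrt n := Real.sqrt_pos.2 (by linarith)
  unfold rr
  have h1 : (1 : ℝ) ≤ Real.log n ^ 2 := one_le_pow₀ hu
  exact div_le_div₀ (by positivity) h1 hs0 hs

theorem lin_le {n : ℕ} (hn : 3 ≤ n) {h : ℝ} (h1 : h ≤ 7 * Real.log n ^ 2) :
    h / Real.sqrt n ≤ 7 * rr n := by
  have h3 : (3 : ℝ) ≤ n := by exact_mod_cast hn
  have hs0 : 0 < Real.sqrt n := Real.sqrt_pos.2 (by linarith)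
  unfold rr
  rw [mul_div_assoc', div_le_div_iff_of_pos_right hs0]
  exact h1

/-- the ratio of the numbers of all polygon words -/
theorem card_ratio : ∃ C : ℝ, 0 ≤ C ∧ ∀ n : ℕ, 3 ≤ n → n % 2 = 1 →
    |((KP (n + 2)).card : ℝ) / (H981.mu ^ 2 * (KP n).card) - 1| ≤
      C * (Real.log n / Real.sqrt n) := by
  obtain ⟨C, hC⟩ := Pool.Agent.W387.Q.main' 0 le_rfl
  have hmm : ∀ n, mm (fun _ => 1) n = ((KP n).card : ℝ) := fun n => by
    unfold mm
    simp
  refine ⟨|C|, abs_nonneg C, fun n hn ho => ?_⟩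
  have h1 := hC n (fun _ => 1) hn ho (fun m _ _ _ => by
    refine ⟨fun _ _ _ _ _ => le_rfl, fun _ _ _ _ _ => ?_, fun _ _ _ _ _ => by simp⟩
    have : (1 : ℝ) ≤ ((m : ℝ) + 5) ^ 3 := one_le_pow₀ (by
      have : (0 : ℝ) ≤ m := Nat.cast_nonneg m
      linarith)
    linarith)
  rw [hmm, hmm] at h1
  have hu := log_one hn
  have h2 : Pool.Agent.W387.Q.rt n = Real.log n / Real.sqrt n := by
    show Real.sqrt (Real.log n ^ 2 / n) = _
    rw [Real.sqrt_div (by positivity), Real.sqrt_sq (by linarith)]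
  rw [← h2]
  exact h1.trans (mul_le_mul_of_nonneg_right (le_abs_self C) (Real.sqrt_nonneg _))

/-! ## the theorem -/

theorem log_le_rr {n : ℕ} (hn : 3 ≤ n) : Real.log n / Real.sqrt n ≤ rr n := by
  have h3 : (3 : ℝ) ≤ n := by exact_mod_cast hn
  have hu := log_one hn
  have hs0 : 0 < Real.sqrt n := Real.sqrt_pos.2 (by linarith)
  unfold rr
  rw [div_le_div_iff_of_pos_right hs0]
  nlinarith

theorem big (c C : ℝ) (hc : 0 < c) : ∃ n₀ : ℕ, ∀ n : ℕ, n₀ ≤ n →
    49 * Real.log n ^ 4 ≤ c * n ∧ C * (Real.log n / Real.sqrt n) ≤ 1 / 2 := by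
  have h1 : ∀ᶠ x : ℝ in Filter.atTop, Real.log x ^ 4 ≤ c / 49 * x := by
    have h := (Real.isLittleO_pow_log_id_atTop (n := 4)).bound (c := c / 49) (by positivity)
    filter_upwards [h, Filter.eventually_ge_atTop 1] with x hx hx1
    rw [Real.norm_eq_abs, Real.norm_eq_abs] at hx
    have : |id x| = x := abs_of_nonneg (by simp; linarith)
    rw [this] at hx
    exact (le_abs_self _).trans hx
  have h2 : ∀ᶠ x : ℝ in Filter.atTop, Real.log x ^ 2 ≤ 1 / (4 * (|C| + 1) ^ 2) * x := by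
    have h := (Real.isLittleO_pow_log_id_atTop (n := 2)).bound (c := 1 / (4 * (|C| + 1) ^ 2))
      (by positivity)
    filter_upwards [h, Filter.eventually_ge_atTop 1] with x hx hx1
    rw [Real.norm_eq_abs, Real.norm_eq_abs] at hx
    have : |id x| = x := abs_of_nonneg (by simp; linarith)
    rw [this] at hx
    exact (le_abs_self _).trans hx
  have h3 := tendsto_natCast_atTop_atTop (R := ℝ) |>.eventually (h1.and h2)
  obtain ⟨n₀, hn₀⟩ := Filter.eventually_atTop.1 h3
  refine ⟨n₀ + 3, fun n hn => ?_⟩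
  obtain ⟨a1, a2⟩ := hn₀ n (by omega)
  have hn3 : 3 ≤ n := by omega
  have h3 : (3 : ℝ) ≤ n := by exact_mod_cast hn3
  have hn0 : (0 : ℝ) < n := by linarith
  have hs0 : 0 < Real.sqrt n := Real.sqrt_pos.2 hn0
  have hu := log_one hn3
  constructor
  · have : c / 49 * (n : ℝ) * 49 = c * n := by ring
    linarith
  · have b1 : Real.log n / Real.sqrt n ≤ 1 / (2 * (|C| + 1)) := by
      rw [div_le_iff₀ hs0]
      apply le_of_sq_le_sq _ (by positivity)
      rw [mul_pow, div_pow, Real.sq_sqrt hn0.le, mul_pow]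
      norm_num
      norm_num at a2
      exact a2
    have b2 : 0 ≤ Real.log n / Real.sqrt n := by positivity
    calc C * (Real.log n / Real.sqrt n) ≤ (|C| + 1) * (Real.log n / Real.sqrt n) :=
          mul_le_mul_of_nonneg_right (by linarith [le_abs_self C]) b2
      _ ≤ (|C| + 1) * (1 / (2 * (|C| + 1))) := mul_le_mul_of_nonneg_left b1 (by positivity)
      _ = 1 / 2 := by
          field_simp

/-- **TV2** -/
theorem t (hup : S_up2) : S_tv2 := by
  obtain ⟨K, δ, hK, hδ, hup⟩ := hup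
  obtain ⟨C, hC, hrat⟩ := card_ratio
  obtain ⟨n₀, hn₀⟩ := big δ C hδ
  have hmu : 0 < H981.mu := H981.mu_pos
  refine ⟨2 * (2 * (7 * K + C)) * 1 * 1 + 2 * (2 * (7 * K + C)) + 34 + 2 * (n₀ + 1), by positivity, ?_⟩
  intro n hn ho S
  have h3 : (3 : ℝ) ≤ n := by exact_mod_cast hn
  have hn0 : (0 : ℝ) < n := by linarith
  have hu := log_one hn
  have hM := card_pos hn ho
  have hM' := card_pos (n := n + 2) (by omega) (by omega)
  change _ ≤ _ * rr n
  have hr := rr_pos hn
  have hri := inv_le_rr hn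
  have hKC : 0 ≤ 7 * K + C := by positivity
  by_cases hbig : n < n₀
  · -- small `n`
    have h1 : ∑ a ∈ S, |Nn (n + 2) a / (KP (n + 2)).card - Nn n a / (KP n).card| ≤
        ∑ a ∈ S, Nn (n + 2) a / (KP (n + 2)).card + ∑ a ∈ S, Nn n a / (KP n).card := by
      rw [← Finset.sum_add_distrib]
      refine Finset.sum_le_sum fun a _ => ?_
      have e1 : 0 ≤ Nn (n + 2) a / (KP (n + 2)).card := div_nonneg (Nn_nonneg _ _) hM'.le
      have e2 : 0 ≤ Nn n a / (KP n).card := div_nonneg (Nn_nonneg _ _) hM.le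
      rw [abs_le]
      exact ⟨by linarith, by linarith⟩
    have h2 : ∑ a ∈ S, Nn (n + 2) a / (KP (n + 2)).card ≤ 1 := by
      rw [← Finset.sum_div, div_le_one hM']
      exact sum_Nn_le S
    have h4 : ∑ a ∈ S, Nn n a / (KP n).card ≤ 1 := by
      rw [← Finset.sum_div, div_le_one hM]
      exact sum_Nn_le S
    have h5 : (1 : ℝ) ≤ (n₀ + 1) * rr n := by
      have h6 : (n : ℝ) ≤ n₀ + 1 := by
        have : n ≤ n₀ + 1 := by omega
        exact_mod_cast this
      calc (1 : ℝ) = n * (1 / n) := by field_simp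
        _ ≤ (n₀ + 1) * rr n := mul_le_mul h6 hri (by positivity) (by positivity)
    have h7 : 0 ≤ (7 * K + C) * rr n := by positivity
    nlinarith
  · -- large `n`
    obtain ⟨hb1, hb2⟩ := hn₀ n (by omega)
    set M : ℝ := ((KP n).card : ℝ) with hMd
    set M' : ℝ := ((KP (n + 2)).card : ℝ) with hMd'
    let T : Finset ℤ := S ∪ Icc (0 : ℤ) ((2 * (n + 2 + 1)) ^ 2 : ℕ)
    have hT : ∀ w ∈ KP n, (ar w : ℤ) ∈ T := by
      intro w hw
      refine mem_union_right _ ?_
      rw [mem_Icc]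
      have e1 := ar_le hn hw
      have e2 : (2 * (n + 1)) ^ 2 ≤ (2 * (n + 2 + 1)) ^ 2 := Nat.pow_le_pow_left (by omega) 2
      exact ⟨by positivity, by exact_mod_cast e1.trans e2⟩
    have hT' : ∀ w ∈ KP (n + 2), (ar w : ℤ) ∈ T := by
      intro w hw
      refine mem_union_right _ ?_
      rw [mem_Icc]
      have e1 := ar_le (n := n + 2) (by omega) hw
      exact ⟨by positivity, by exact_mod_cast e1⟩
    let q : ℤ → ℝ := fun a => Nn n a / M
    let q' : ℤ → ℝ := fun a => Nn (n + 2) a / M'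
    have hq : ∀ a, 0 ≤ q a := fun a => div_nonneg (Nn_nonneg _ _) hM.le
    have hq' : ∀ a, 0 ≤ q' a := fun a => div_nonneg (Nn_nonneg _ _) hM'.le
    have hs : ∑ a ∈ T, q a = 1 := by
      rw [← Finset.sum_div, sum_Nn hT]
      exact div_self hM.ne'
    have hs' : ∑ a ∈ T, q' a = 1 := by
      rw [← Finset.sum_div, sum_Nn hT']
      exact div_self hM'.ne'
    have hy := hrat n hn ho
    set y : ℝ := M' / (H981.mu ^ 2 * M) with hyd
    have hy2 : 1 / 2 ≤ y := by
      have := (abs_le.1 (hy.trans hb2)).1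
      linarith
    have hy1 : |y - 1| ≤ C * rr n := by
      calc |y - 1| ≤ C * (Real.log n / Real.sqrt n) := hy
        _ ≤ C * rr n := mul_le_mul_of_nonneg_left (log_le_rr hn) hC
    have main := tv_abs T q q' hq' hq hs hs' (2 * (7 * K + C) * rr n) (1 / (n : ℝ) ^ 6)
      (17 * rr n) (by positivity) ?_ ?_
    · have h1 : ∑ a ∈ S, |q' a - q a| ≤ ∑ a ∈ T, |q' a - q a| :=
        Finset.sum_le_sum_of_subset_of_nonneg subset_union_left fun a _ _ => abs_nonneg _
      have h2 : ∑ a ∈ S, |Nn (n + 2) a / M' - Nn n a / M| = ∑ a ∈ S, |q' a - q a| := rfl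
      rw [h2]
      refine (h1.trans main).trans ?_
      have h7 : 0 ≤ (7 * K + C) * rr n := by positivity
      have h8 : 0 ≤ (n₀ : ℝ) * rr n := by positivity
      nlinarith
    · -- good areas
      intro a _ hga
      have hNa : 0 < Nn n a := by
        have h1 : 0 < q a := lt_of_lt_of_le (by positivity) hga
        by_contra h2
        have h4 : Nn n a = 0 := le_antisymm (not_lt.1 h2) (Nn_nonneg _ _)
        change 0 < Nn n a / M at h1
        rw [h4, zero_div] at h1
        exact lt_irrefl _ h1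
      have hMN : 1 ≤ M / Nn n a := by
        rw [one_le_div hNa]
        exact Nn_le n a
      have hlog0 : 0 ≤ Real.log (M / Nn n a) := Real.log_nonneg hMN
      have hlog : Real.log (M / Nn n a) ≤ 6 * Real.log n := by
        have h1 : M / Nn n a ≤ (n : ℝ) ^ 6 := by
          have h2 : 1 / (n : ℝ) ^ 6 ≤ Nn n a / M := hga
          rw [div_le_div_iff₀ (by positivity) hM, one_mul] at h2
          rw [div_le_iff₀ hNa]
          linarith
        have h2 := Real.log_le_log (by positivity) h1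
        rw [Real.log_pow] at h2
        exact_mod_cast h2
      have hhl0 : 0 ≤ hl n a := by
        change 0 ≤ Real.log n ^ 2 + Real.log (M / Nn n a)
        positivity
      have hhl : hl n a ≤ 7 * Real.log n ^ 2 := by
        change Real.log n ^ 2 + Real.log (M / Nn n a) ≤ _
        have : Real.log n ≤ Real.log n ^ 2 := by nlinarith
        linarith
      have hcond : hl n a ^ 2 ≤ δ * n := by
        calc hl n a ^ 2 ≤ (7 * Real.log n ^ 2) ^ 2 := pow_le_pow_left₀ hhl0 hhl 2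
          _ = 49 * Real.log n ^ 4 := by ring
          _ ≤ δ * n := hb1
      have hx := hup n hn ho a hNa hcond
      have hx1 : |Nn (n + 2) a / (H981.mu ^ 2 * Nn n a) - 1| ≤ 7 * K * rr n := by
        refine hx.trans ?_
        calc K * (hl n a / Real.sqrt n) ≤ K * (7 * rr n) :=
              mul_le_mul_of_nonneg_left (lin_le hn hhl) hK.le
          _ = _ := by ring
      set x : ℝ := Nn (n + 2) a / (H981.mu ^ 2 * Nn n a) with hxd
      have hy0 : 0 < y := by linarith
      have e1 : q' a - q a = (x - y) / y * q a := by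
        change Nn (n + 2) a / M' - Nn n a / M = (x - y) / y * (Nn n a / M)
        rw [hxd, hyd]
        field_simp
      rw [e1, abs_mul, abs_of_nonneg (hq a)]
      apply mul_le_mul_of_nonneg_right _ (hq a)
      rw [abs_div, abs_of_pos hy0, div_le_iff₀ hy0]
      have e2 : |x - y| ≤ |x - 1| + |y - 1| := by
        have : x - y = (x - 1) - (y - 1) := by ring
        rw [this]
        exact abs_sub _ _
      have e3 : |x - y| ≤ (7 * K + C) * rr n := by linarith
      have e4 : 0 ≤ (7 * K + C) * rr n := by positivity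
      nlinarith
    · -- bad areas
      have h1 : ∑ a ∈ T.filter (fun a => ¬ 1 / (n : ℝ) ^ 6 ≤ q a), q a ≤
          ∑ a ∈ Icc (0 : ℤ) ((2 * (n + 2 + 1)) ^ 2 : ℕ), 1 / (n : ℝ) ^ 6 := by
        rw [← Finset.sum_filter_add_sum_filter_not (T.filter (fun a => ¬ 1 / (n : ℝ) ^ 6 ≤ q a))
          (fun a => a ∈ Icc (0 : ℤ) ((2 * (n + 2 + 1)) ^ 2 : ℕ))]
        have e2 : ∑ a ∈ (T.filter (fun a => ¬ 1 / (n : ℝ) ^ 6 ≤ q a)).filter
            (fun a => ¬ a ∈ Icc (0 : ℤ) ((2 * (n + 2 + 1)) ^ 2 : ℕ)), q a = 0 := by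
          refine Finset.sum_eq_zero fun a ha => ?_
          have h2 := (mem_filter.1 ha).2
          change Nn n a / M = 0
          rw [Nn_zero hn, zero_div]
          intro h4
          apply h2
          rw [mem_Icc] at h4 ⊢
          have e2 : (2 * (n + 1)) ^ 2 ≤ (2 * (n + 2 + 1)) ^ 2 := Nat.pow_le_pow_left (by omega) 2
          refine ⟨h4.1, h4.2.trans ?_⟩
          exact_mod_cast e2
        rw [e2, add_zero]
        calc
          _ ≤ ∑ a ∈ (T.filter (fun a => ¬ 1 / (n : ℝ) ^ 6 ≤ q a)).filter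
              (fun a => a ∈ Icc (0 : ℤ) ((2 * (n + 2 + 1)) ^ 2 : ℕ)), 1 / (n : ℝ) ^ 6 :=
              Finset.sum_le_sum fun a ha =>
                (not_le.1 (mem_filter.1 (mem_filter.1 ha).1).2).le
          _ ≤ _ := Finset.sum_le_sum_of_subset_of_nonneg
              (fun a ha => (mem_filter.1 ha).2) fun a _ _ => by positivity
      refine h1.trans ?_
      rw [Finset.sum_const, nsmul_eq_mul, Int.card_Icc]
      have e3 : (((((2 * (n + 2 + 1)) ^ 2 : ℕ) : ℤ) + 1 - 0).toNat : ℝ) =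
          (2 * ((n : ℝ) + 2 + 1)) ^ 2 + 1 := by
        have : ((((2 * (n + 2 + 1)) ^ 2 : ℕ) : ℤ) + 1 - 0).toNat = (2 * (n + 2 + 1)) ^ 2 + 1 := by
          omega
        rw [this]
        push_cast
        ring
      rw [e3]
      have e4 : (2 * ((n : ℝ) + 2 + 1)) ^ 2 + 1 ≤ 17 * (n : ℝ) ^ 2 := by nlinarith
      have e5 : (n : ℝ) ^ 2 * (1 / (n : ℝ) ^ 6) ≤ 1 / n := by
        rw [mul_one_div, div_le_div_iff₀ (by positivity) hn0, one_mul]
        calc (n : ℝ) ^ 2 * n = (n : ℝ) ^ 3 := by ring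
          _ ≤ (n : ℝ) ^ 6 := pow_le_pow_right₀ (by linarith) (by norm_num)
      calc ((2 * ((n : ℝ) + 2 + 1)) ^ 2 + 1) * (1 / (n : ℝ) ^ 6)
          ≤ 17 * (n : ℝ) ^ 2 * (1 / (n : ℝ) ^ 6) :=
            mul_le_mul_of_nonneg_right e4 (by positivity)
        _ = 17 * ((n : ℝ) ^ 2 * (1 / (n : ℝ) ^ 6)) := by ring
        _ ≤ 17 * (1 / n) := mul_le_mul_of_nonneg_left e5 (by norm_num)
        _ ≤ 17 * rr n := mul_le_mul_of_nonneg_left hri (by norm_num)

end

end Pool.Agent.Q280.PT.TV2
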