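import Pool.Agent.Q91.PT.Stm4
import Pool.Agent.Q224.PT.TVW
import Pool.Agent.W387.Q.Poly
import Pool.Agent.TH508.LT.Ex2

/-!
# Project PT (helper91), job UP2: the ratio theorem at a fixed area, better rate
-/

set_option autoImplicit false

namespace Pool.Agent.Q280.PT.UP2

open Finset Pool.Agent.H976R2 Pool.Agent.H976R2.Lip Pool.Agent.H739K Pool.Agent.H924P
open Pool.Agent.Q91.PT
open Pool.Agent.Q224.PT.TVW (log_one Nn_nonneg Nn_le card_pos)
open scoped Classical

noncomputable section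

/-- bounds for the number of polygon words with the exponent two -/
theorem bnd2 : 2.43 ≤ H981.mu ∧ ∃ K : ℝ, 0 ≤ K ∧ ∀ n : ℕ, 3 ≤ n → n % 2 = 1 →
    H981.mu ^ n * Real.exp (-(K * (Real.log n) ^ 2)) ≤ ((KP n).card : ℝ) ∧
    ((KP n).card : ℝ) ≤ H981.mu ^ n * Real.exp (K * (Real.log n) ^ 2) :=
  Pool.Agent.W387.Q.bnd

/-- bound in the window -/
theorem win {K : ℝ} (hK : 0 ≤ K) {n m : ℕ} (hn : 3 ≤ n) (hm : 3 ≤ m) (hmn : m ≤ 2 * n) :
    K * Real.log m ^ 2 ≤ 4 * K * Real.log n ^ 2 := by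
  have h3 : (3 : ℝ) ≤ n := by exact_mod_cast hn
  have h3m : (3 : ℝ) ≤ m := by exact_mod_cast hm
  have h1 : (m : ℝ) ≤ (n : ℝ) ^ 2 := by
    have : (m : ℝ) ≤ 2 * n := by exact_mod_cast hmn
    nlinarith
  have h2 := Real.log_le_log (by linarith) h1
  rw [Real.log_pow] at h2
  push_cast at h2
  have h4 : 0 ≤ Real.log (m : ℝ) := Real.log_nonneg (by linarith)
  have h5 : Real.log (m : ℝ) ^ 2 ≤ (2 * Real.log n) ^ 2 := pow_le_pow_left₀ h4 h2 2
  calc K * Real.log m ^ 2 ≤ K * (2 * Real.log n) ^ 2 := mul_le_mul_of_nonneg_left h5 hK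
    _ = 4 * K * Real.log n ^ 2 := by ring

/-- division of the local logarithmic convexity by powers of `mu` -/
theorem scale {mu c A0 A1 A2 E p : ℝ} (hmu : 1 ≤ mu) (hp : 0 < p) (hc : 0 ≤ c) (hA0 : 0 ≤ A0)
    (hA1 : 0 ≤ A1) (hE : 0 ≤ E)
    (h : A1 ^ 2 ≤ A0 * A2 + c * (A0 + A1 + E) ^ 2) :
    (A1 / (p * mu ^ 2)) ^ 2 ≤ A0 / p * (A2 / (p * mu ^ 4)) +
      c * (A0 / p + A1 / (p * mu ^ 2) + E / p) ^ 2 := by
  have hmu0 : 0 < mu := by linarith
  have hmu2 : 1 ≤ mu ^ 2 := one_le_pow₀ hmu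
  have h1 : A0 / (p * mu ^ 2) ≤ A0 / p :=
    div_le_div_of_nonneg_left hA0 hp (by nlinarith)
  have h2 : E / (p * mu ^ 2) ≤ E / p :=
    div_le_div_of_nonneg_left hE hp (by nlinarith)
  have h3 : (A0 / (p * mu ^ 2) + A1 / (p * mu ^ 2) + E / (p * mu ^ 2)) ^ 2 ≤
      (A0 / p + A1 / (p * mu ^ 2) + E / p) ^ 2 :=
    pow_le_pow_left₀ (by positivity) (by linarith) 2
  have h4 : (A1 / (p * mu ^ 2)) ^ 2 ≤ A0 / p * (A2 / (p * mu ^ 4)) +
      c * (A0 / (p * mu ^ 2) + A1 / (p * mu ^ 2) + E / (p * mu ^ 2)) ^ 2 := by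
    have e1 : (A1 / (p * mu ^ 2)) ^ 2 = A1 ^ 2 / (p ^ 2 * mu ^ 4) := by
      rw [div_pow]
      congr 1
      ring
    have e2 : A0 / p * (A2 / (p * mu ^ 4)) +
      c * (A0 / (p * mu ^ 2) + A1 / (p * mu ^ 2) + E / (p * mu ^ 2)) ^ 2 =
        (A0 * A2 + c * (A0 + A1 + E) ^ 2) / (p ^ 2 * mu ^ 4) := by
      field_simp
    rw [e1, e2]
    exact div_le_div_of_nonneg_right h (by positivity)
  have h5 := mul_le_mul_of_nonneg_left h3 hc
  linarith

/-- **UP2** -/
theorem t (hlo : S_lo2) (hseq : S_seq) : S_up2 := by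
  obtain ⟨C, c, hC, hc, hlo⟩ := hlo
  obtain ⟨Cs, cs, hCs, hcs, hseq⟩ := hseq
  obtain ⟨hmu, K0, hK0, hbnd⟩ := bnd2
  have hmu1 : (1 : ℝ) ≤ H981.mu := by linarith
  have hmu0 : (0 : ℝ) < H981.mu := by linarith
  obtain ⟨K', hK'⟩ : ∃ K' : ℝ, K' = 4 * K0 + 1 := ⟨_, rfl⟩
  have hK'1 : 1 ≤ K' := by linarith
  obtain ⟨C', hC'⟩ : ∃ C' : ℝ, C' = 24 * C + 100 := ⟨_, rfl⟩
  have hC'1 : 100 ≤ C' := by linarith
  obtain ⟨δ, hδ⟩ : ∃ δ : ℝ, δ = min (c / (24 * K')) (cs / (C' * K' ^ 2)) := ⟨_, rfl⟩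
  have hδ0 : 0 < δ := by
    rw [hδ]
    exact lt_min (by positivity) (by positivity)
  have hδ1 : δ ≤ c / (24 * K') := by rw [hδ]; exact min_le_left _ _
  have hδ2 : δ ≤ cs / (C' * K' ^ 2) := by rw [hδ]; exact min_le_right _ _
  refine ⟨Cs * (Real.sqrt C' * K'), δ, by positivity, hδ0, ?_⟩
  intro n hn ho a hNa hcond
  have h3 : (3 : ℝ) ≤ n := by exact_mod_cast hn
  have hn0 : (0 : ℝ) < n := by linarith
  have hu := log_one hn
  have hM := card_pos hn ho
  have hMN : 1 ≤ ((KP n).card : ℝ) / Nn n a := by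
    rw [one_le_div hNa]
    exact Nn_le n a
  have hlog0 : 0 ≤ Real.log (((KP n).card : ℝ) / Nn n a) := Real.log_nonneg hMN
  have hu2 : 1 ≤ Real.log n ^ 2 := one_le_pow₀ hu
  have hh1 : Real.log n ^ 2 ≤ hl n a := by
    unfold hl
    linarith
  have hh0 : 1 ≤ hl n a := hu2.trans hh1
  obtain ⟨H, hH⟩ : ∃ H : ℝ, H = K' * hl n a := ⟨_, rfl⟩
  have hH1 : 1 ≤ H := by
    rw [hH]
    nlinarith
  have hHlog : 4 * K0 * Real.log n ^ 2 ≤ H := by
    rw [hH, hK']
    nlinarith
  -- `H` is small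
  have hhn : hl n a ≤ δ * n := by
    calc hl n a ≤ hl n a ^ 2 := by nlinarith
      _ ≤ δ * n := hcond
  have hHn : 24 * H ≤ c * n := by
    have h1 : δ * (24 * K') ≤ c := by
      rw [le_div_iff₀ (by positivity)] at hδ1
      exact hδ1
    calc 24 * H = 24 * K' * hl n a := by rw [hH]; ring
      _ ≤ 24 * K' * (δ * n) := mul_le_mul_of_nonneg_left hhn (by positivity)
      _ = δ * (24 * K') * n := by ring
      _ ≤ c * n := mul_le_mul_of_nonneg_right h1 hn0.le
  have hHH : C' * H / n * H ≤ cs := by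
    have h1 : δ * (C' * K' ^ 2) ≤ cs := by
      rw [le_div_iff₀ (by positivity)] at hδ2
      exact hδ2
    have e1 : C' * H / n * H = C' * K' ^ 2 * (hl n a ^ 2 / n) := by
      rw [hH]
      ring
    have h2 : hl n a ^ 2 / n ≤ δ := by
      rw [div_le_iff₀ hn0]
      exact hcond
    rw [e1]
    calc C' * K' ^ 2 * (hl n a ^ 2 / n) ≤ C' * K' ^ 2 * δ :=
          mul_le_mul_of_nonneg_left h2 (by positivity)
      _ = δ * (C' * K' ^ 2) := by ring
      _ ≤ cs := h1
  have hup : ∀ m : ℕ, n ≤ 2 * m → m ≤ 2 * n → m % 2 = n % 2 →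
      ((KP m).card : ℝ) / H981.mu ^ m ≤ Real.exp H := by
    intro m h1 h2 h4
    have hm3 : 3 ≤ m := by omega
    have hb := (hbnd m hm3 (by omega)).2
    rw [div_le_iff₀ (by positivity)]
    refine hb.trans ?_
    rw [mul_comm]
    exact mul_le_mul_of_nonneg_right (Real.exp_le_exp.2 ((win hK0 hn hm3 h2).trans hHlog))
      (by positivity)
  have key := hseq n H (C' * H / n) (fun m => Nn m a / H981.mu ^ m) (by omega) hH1 (by positivity)
    hHH ?_ ?_ ?_ ?_
  · have e1 : (fun m => Nn m a / H981.mu ^ m) (n + 2) / (fun m => Nn m a / H981.mu ^ m) n - 1 =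
        Nn (n + 2) a / (H981.mu ^ 2 * Nn n a) - 1 := by
      have hp : (0 : ℝ) < H981.mu ^ n := by positivity
      simp only
      rw [pow_add]
      field_simp
    rw [e1] at key
    refine key.trans (le_of_eq ?_)
    have e2 : C' * H / n * H = C' * (K' * hl n a) ^ 2 / n := by
      rw [hH]
      ring
    rw [e2, Real.sqrt_div (by positivity), Real.sqrt_mul (by positivity),
      Real.sqrt_sq (by positivity)]
    ring
  · -- `100 ≤ δ' n`
    have : C' * H / n * n = C' * H := by field_simp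
    rw [this]
    nlinarith
  · intro m h1 h2 h4
    refine ⟨div_nonneg (Nn_nonneg _ _) (by positivity), ?_⟩
    refine le_trans ?_ (hup m h1 h2 h4)
    exact div_le_div_of_nonneg_right (Nn_le m a) (by positivity)
  · -- lower bound at `n`
    have hb := (hbnd n hn ho).1
    have e1 : Real.exp (-Real.log (((KP n).card : ℝ) / Nn n a)) = Nn n a / (KP n).card := by
      rw [Real.exp_neg, Real.exp_log (by positivity), inv_div]
    have e2 : Real.exp (-(K0 * Real.log n ^ 2)) ≤ ((KP n).card : ℝ) / H981.mu ^ n := by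
      rw [le_div_iff₀ (by positivity), mul_comm]
      exact hb
    calc Real.exp (-H) ≤ Real.exp (-Real.log (((KP n).card : ℝ) / Nn n a) +
          -(K0 * Real.log n ^ 2)) := by
          apply Real.exp_le_exp.2
          have : Real.log (((KP n).card : ℝ) / Nn n a) + K0 * Real.log n ^ 2 ≤ H := by
            have e3 : hl n a = Real.log n ^ 2 + Real.log (((KP n).card : ℝ) / Nn n a) := rfl
            rw [hH, hK', e3]
            have : 0 ≤ K0 * Real.log (((KP n).card : ℝ) / Nn n a) := mul_nonneg hK0 hlog0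
            have : 0 ≤ K0 * Real.log n ^ 2 := by positivity
            nlinarith
          linarith
      _ = Nn n a / (KP n).card * Real.exp (-(K0 * Real.log n ^ 2)) := by
          rw [Real.exp_add, e1]
      _ ≤ Nn n a / (KP n).card * (((KP n).card : ℝ) / H981.mu ^ n) :=
          mul_le_mul_of_nonneg_left e2 (by positivity)
      _ = Nn n a / H981.mu ^ n := by field_simp
  · -- convexity
    intro m h1 h2 h4
    have hm3 : 3 ≤ m := by omega
    have hm0 : (0 : ℝ) < m := by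
      have : 0 < m := by omega
      exact_mod_cast this
    have hnm : (n : ℝ) ≤ 2 * m := by exact_mod_cast h1
    have hL := hlo m hm3 (by omega) a (12 * H) (by linarith) (by nlinarith)
    have hp : (0 : ℝ) < H981.mu ^ m := by positivity
    have hs := scale hmu1 hp (by positivity) (Nn_nonneg m a) (Nn_nonneg (m + 2) a)
      (by positivity : (0 : ℝ) ≤ Real.exp (-(12 * H)) * ((KP m).card : ℝ)) hL
    rw [pow_add, pow_add]
    refine hs.trans ?_
    have hE : Real.exp (-(12 * H)) * ((KP m).card : ℝ) / H981.mu ^ m ≤ Real.exp (-8 * H) := by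
      calc Real.exp (-(12 * H)) * ((KP m).card : ℝ) / H981.mu ^ m
          = Real.exp (-(12 * H)) * (((KP m).card : ℝ) / H981.mu ^ m) := by ring
        _ ≤ Real.exp (-(12 * H)) * Real.exp H :=
            mul_le_mul_of_nonneg_left (hup m h1 (by omega) h4) (Real.exp_pos _).le
        _ = Real.exp (-(12 * H) + H) := (Real.exp_add _ _).symm
        _ ≤ Real.exp (-8 * H) := Real.exp_le_exp.2 (by linarith)
    have hb0 : 0 ≤ Nn m a / H981.mu ^ m := div_nonneg (Nn_nonneg _ _) (by positivity)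
    have hb1 : 0 ≤ Nn (m + 2) a / (H981.mu ^ m * H981.mu ^ 2) :=
      div_nonneg (Nn_nonneg _ _) (by positivity)
    have hE0 : 0 ≤ Real.exp (-(12 * H)) * ((KP m).card : ℝ) / H981.mu ^ m := by positivity
    have hcc : C * (12 * H / m) ≤ C' * H / n := by
      rw [mul_div_assoc', div_le_div_iff₀ hm0 hn0]
      have e1 : C * (12 * H) * n ≤ C * (12 * H) * (2 * m) :=
        mul_le_mul_of_nonneg_left hnm (by positivity)
      have e2 : C' * H * m = C * (12 * H) * (2 * m) + 100 * H * m := by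
        rw [hC']
        ring
      have e3 : 0 ≤ 100 * H * m := by positivity
      linarith
    have hsq : (Nn m a / H981.mu ^ m + Nn (m + 2) a / (H981.mu ^ m * H981.mu ^ 2) +
        Real.exp (-(12 * H)) * ((KP m).card : ℝ) / H981.mu ^ m) ^ 2 ≤
        (Nn m a / H981.mu ^ m + Nn (m + 2) a / (H981.mu ^ m * H981.mu ^ 2) +
          Real.exp (-8 * H)) ^ 2 := pow_le_pow_left₀ (by linarith) (by linarith) 2
    have := mul_le_mul hcc hsq (sq_nonneg _) (by positivity)
    linarith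

end

end Pool.Agent.Q280.PT.UP2
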